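import Mathlib
import Pool.Agent.Helper25.ClAct
import Pool.Agent.Helper69.BQ.Basic

/-!
# Project BQ, piece D1 (`MP_282bb6_nt`): direct summands of the 2-torsion of the class group from
equivariant maps.
-/

namespace Pool.Agent.Helper59.BQ

open Module NumberField Pool.Agent.Helper25.Biq Pool.Agent.Helper69.BQ

variable {K : Type} [Field K] [NumberField K] [IsGalois ℚ K]

/-- D1. A representation with equivariant maps `i : V → Cl(K)[2]`, `π : Cl(K)[2] → V` such that
`π ∘ i` is injective arises (the complement is the kernel of `π`). -/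
theorem arises_of_maps (φ : C22 ≃* (K ≃ₐ[ℚ] K)) {V : Type} [AddCommGroup V]
    [Module (ZMod 2) V] [Finite V] (ρ : Representation (ZMod 2) C22 V)
    (i : V →ₗ[ZMod 2] TT K) (π : TT K →ₗ[ZMod 2] V)
    (hi : ∀ g v, i (ρ g v) = act (φ g) (i v)) (hπ : ∀ g x, π (act (φ g) x) = ρ g (π x))
    (hinj : Function.Injective fun v => π (i v)) : Arises ρ := by
  have hi' : Function.Injective i := fun a b hab => hinj (by show π (i a) = π (i b); rw [hab])
  have hsurj : Function.Surjective fun v => π (i v) := Finite.surjective_of_injective hinj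
  let j : Multiplicative V →* ClassGroup (𝓞 K) :=
    { toFun := fun v => (i (Multiplicative.toAdd v)).val
      map_one' := by
        show (i 0).val = 1
        rw [map_zero, TT.val_zero]
      map_mul' := fun a b => by
        show (i (Multiplicative.toAdd a + Multiplicative.toAdd b)).val =
          (i (Multiplicative.toAdd a)).val * (i (Multiplicative.toAdd b)).val
        rw [map_add, TT.val_add] }
  let N : Subgroup (ClassGroup (𝓞 K)) :=
    { carrier := {x | ∃ y : TT K, π y = 0 ∧ y.val = x}
      mul_mem' := by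
        rintro _ _ ⟨a, ha, rfl⟩ ⟨b, hb, rfl⟩
        exact ⟨a + b, by rw [map_add, ha, hb, add_zero], TT.val_add a b⟩
      one_mem' := ⟨0, map_zero π, TT.val_zero⟩
      inv_mem' := by
        rintro _ ⟨a, ha, rfl⟩
        refine ⟨-a, by rw [map_neg, ha, neg_zero], ?_⟩
        apply eq_inv_of_mul_eq_one_right
        rw [← TT.val_add, add_neg_cancel, TT.val_zero] }
  refine ⟨K, inferInstance, inferInstance, inferInstance, φ, j, N, ?_, ?_, ?_, ?_, ?_⟩
  · intro a b hab
    exact Multiplicative.toAdd.injective (hi' (TT.val_injective hab))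
  · intro g v
    show (i (ρ g v)).val = actCl (φ g) (i v).val
    rw [hi, val_act]
  · rintro g _ ⟨y, hy, rfl⟩
    refine ⟨act (φ g) y, by rw [hπ, hy, map_zero], rfl⟩
  · rw [eq_bot_iff]
    rintro x ⟨⟨v, rfl⟩, ⟨y, hy, hyv⟩⟩
    have h1 : y = i (Multiplicative.toAdd v) := TT.val_injective hyv
    have h2 : Multiplicative.toAdd v = 0 := by
      apply hinj
      show π (i (Multiplicative.toAdd v)) = π (i 0)
      rw [← h1, hy, map_zero, map_zero]
    rw [Subgroup.mem_bot]
    show (i (Multiplicative.toAdd v)).val = 1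
    rw [h2, map_zero, TT.val_zero]
  · intro x
    rw [Subgroup.mem_sup]
    constructor
    · rintro ⟨_, ⟨v, rfl⟩, _, ⟨y, hy, rfl⟩, rfl⟩
      show ((i (Multiplicative.toAdd v)).val * y.val) ^ 2 = 1
      rw [← TT.val_add, TT.val_sq]
    · intro hx
      obtain ⟨v, hv⟩ := hsurj (π (TT.mk x hx))
      have hv' : π (i v) = π (TT.mk x hx) := hv
      refine ⟨(i v).val, ⟨Multiplicative.ofAdd v, rfl⟩, (TT.mk x hx - i v).val,
        ⟨TT.mk x hx - i v, by rw [map_sub, hv', sub_self], rfl⟩, ?_⟩
      rw [← TT.val_add, add_sub_cancel, TT.val_mk]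

end Pool.Agent.Helper59.BQ
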